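import Pool.Agent.MP_c69980_ag.H43.Spec2

/-!
Row GA2: the group structure and the periods of a semi-abelian variety.
-/

set_option autoImplicit false

namespace Pool.Agent.MP_c69980_ag.H43

open MvPolynomial H60 Finset Filter Topology

variable {t a M : ℕ} {w : Fin M → Option (Fin t)} {Θ : Pt t a → Fin M → ℂ}

/-- A bihomogeneous map that gives the subtraction where it does not vanish. -/
def GA2Val (Θ : Pt t a → Fin M → ℂ) (S : Fin M → MvPolynomial (Fin M ⊕ Fin M) ℂ) : Prop :=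
  (∃ d e : ℕ, ∀ c (l l' : ℂ) (x y : Fin M → ℂ), eval (Sum.elim (l • x) (l' • y)) (S c) =
      l ^ d * l' ^ e * eval (Sum.elim x y) (S c)) ∧
    ∀ p q, ∃ l : ℂ, ∀ c, eval (Sum.elim (Θ p) (Θ q)) (S c) = l * Θ (p - q) c

/-- Two points with the same image. -/
def GA2R (Θ : Pt t a → Fin M → ℂ) (p q : Pt t a) : Prop := ∃ l : ℂ, Θ p = l • Θ q

lemma GA2_sub (hs : ∀ p q, ∃ S, GA2Val Θ S ∧ ∃ c, eval (Sum.elim (Θ p) (Θ q)) (S c) ≠ 0) :
    ∃ s, SubF Θ s := by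
  classical
  obtain ⟨s, s1, s2⟩ := (Submodule.fg_span_iff_fg_span_finset_subset
    {F | ∃ S, GA2Val Θ S ∧ ∃ c, F = S c}).1 (IsNoetherian.noetherian (Ideal.span _))
  choose f f1 f2 using fun F : s => s1 F.2
  refine ⟨univ.image f, fun S hS => ?_, fun p q => ?_⟩
  · obtain ⟨F, -, rfl⟩ := mem_image.1 hS
    exact f1 F
  · by_contra hn
    push Not at hn
    obtain ⟨S, v, c, hc⟩ := hs p q
    have : Submodule.span (MvPolynomial (Fin M ⊕ Fin M) ℂ) {F | ∃ S, GA2Val Θ S ∧ ∃ c, F = S c} ≤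
        RingHom.ker (eval (Sum.elim (Θ p) (Θ q))) := by
      rw [s2, Submodule.span_le]
      intro F hF
      obtain ⟨c, e⟩ := f2 ⟨F, hF⟩
      have := hn _ (mem_image_of_mem f (mem_univ ⟨F, hF⟩)) c
      rwa [← e] at this
    exact hc (this (Submodule.subset_span ⟨S, v, c, rfl⟩))

lemma GA2_ne (g : GA1 w Θ) (p : Pt t a) : Θ p ≠ 0 := fun e => by
  obtain ⟨b, -, hb⟩ := g.blk p none
  exact hb (congrFun e b)

lemma GA2_refl (p : Pt t a) : GA2R Θ p p := ⟨1, (one_smul _ _).symm⟩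

lemma GA2_symm (g : GA1 w Θ) {p q : Pt t a} (h : GA2R Θ p q) : GA2R Θ q p := by
  obtain ⟨l, e⟩ := h
  have l0 : l ≠ 0 := fun h => GA2_ne g p (by rw [e, h, zero_smul])
  exact ⟨l⁻¹, by rw [e, inv_smul_smul₀ l0]⟩

lemma GA2_rsub (g : GA1 w Θ)
    (hs : ∀ p q, ∃ S, GA2Val Θ S ∧ ∃ c, eval (Sum.elim (Θ p) (Θ q)) (S c) ≠ 0)
    {p q p' q' : Pt t a} (h : GA2R Θ p p') (h' : GA2R Θ q q') : GA2R Θ (p - q) (p' - q') := by
  obtain ⟨l, e⟩ := h
  obtain ⟨l', e'⟩ := h'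
  have l0 : l ≠ 0 := fun h => GA2_ne g p (by rw [e, h, zero_smul])
  have l0' : l' ≠ 0 := fun h => GA2_ne g q (by rw [e', h, zero_smul])
  obtain ⟨S, ⟨⟨d, d', hd⟩, v⟩, c, hc⟩ := hs p' q'
  obtain ⟨m, hm⟩ := v p q
  obtain ⟨m', hm'⟩ := v p' q'
  have k : ∀ c, m * Θ (p - q) c = l ^ d * l' ^ d' * eval (Sum.elim (Θ p') (Θ q')) (S c) :=
    fun c => by rw [← hm, e, e', hd]
  have m0 : m ≠ 0 := left_ne_zero_of_mul (by
    rw [k c]
    exact mul_ne_zero (mul_ne_zero (pow_ne_zero _ l0) (pow_ne_zero _ l0')) hc)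
  refine ⟨l ^ d * l' ^ d' * m' / m, funext fun c => mul_left_cancel₀ m0 ?_⟩
  rw [k c, hm' c, Pi.smul_apply, smul_eq_mul]
  field_simp

lemma GA2_inT_left (s : Fin t → ℂ) (j : Fin t) : inT a s (Fin.castAdd a j) = s j :=
  Fin.append_left _ _ _

lemma GA2_inT_right (s : Fin t → ℂ) (i : Fin a) : inT a s (Fin.natAdd t i) = 0 :=
  Fin.append_right _ _ _

lemma GA2_bd (g : GA1 w Θ) : ∃ B : ℝ, ∀ y ∈ Lam Θ, ∀ j, (y (Fin.castAdd a j)).re ≤ B := by
  obtain ⟨C, C1, hC⟩ := g.cmp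
  obtain ⟨b₀, w0, n0⟩ := g.blk 0 none
  have p0 := norm_pos_iff.2 n0
  refine ⟨C * ‖Θ 0‖ / ‖Θ 0 b₀‖, fun y ⟨l, hl⟩ j => ?_⟩
  obtain ⟨b, wb, hb⟩ := hC (y - reT y) (fun j => by simp [reT, GA2_inT_left]) (some j)
  have k : ∀ c, ‖l‖ * ‖Θ 0 c‖ = ‖(w c).elim 1 fun j =>
      Complex.exp ((y (Fin.castAdd a j)).re : ℂ)‖ * ‖Θ (y - reT y) c‖ := fun c => by
    rw [← norm_mul, ← norm_mul, ← g.act]
    change _ = ‖Θ (y - reT y + reT y) c‖
    rw [sub_add_cancel, hl, Pi.smul_apply, smul_eq_mul]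
  have k0 := k b₀
  have k1 := k b
  rw [w0, Option.elim_none, norm_one, one_mul] at k0
  rw [wb, Option.elim_some, Complex.norm_exp_ofReal] at k1
  have p1 := norm_pos_iff.2 (GA2_ne g (y - reT y))
  have p2 : 0 < ‖Θ (y - reT y) b‖ := pos_of_mul_pos_right (p1.trans_le hb) (by linarith)
  have h1 : ‖l‖ * ‖Θ 0 b₀‖ ≤ C * ‖Θ (y - reT y) b‖ :=
    k0.trans_le ((norm_le_pi_norm _ _).trans hb)
  have h2 : Real.exp (y (Fin.castAdd a j)).re * ‖Θ (y - reT y) b‖ ≤ ‖l‖ * ‖Θ 0‖ :=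
    k1.symm.trans_le (mul_le_mul_of_nonneg_left (norm_le_pi_norm _ _) (norm_nonneg _))
  have h3 := mul_le_mul_of_nonneg_right h1 (norm_nonneg (Θ 0))
  have h4 := mul_le_mul_of_nonneg_right h2 p0.le
  have h5 : Real.exp (y (Fin.castAdd a j)).re * ‖Θ 0 b₀‖ ≤ C * ‖Θ 0‖ :=
    le_of_mul_le_mul_right (by linarith) p2
  have h6 := Real.add_one_le_exp (y (Fin.castAdd a j)).re
  rw [← le_div_iff₀ p0] at h5
  linarith

lemma GA2_lre (g : GA1 w Θ) (ls : ∀ x ∈ Lam Θ, ∀ y ∈ Lam Θ, x - y ∈ Lam Θ) :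
    ∀ x ∈ Lam Θ, ∀ j, (x (Fin.castAdd a j)).re = 0 := by
  obtain ⟨B, hB⟩ := GA2_bd g
  have z : (0 : Pt t a) ∈ Lam Θ := GA2_refl 0
  have ng : ∀ x ∈ Lam Θ, -x ∈ Lam Θ := fun x hx => zero_sub x ▸ ls 0 z x hx
  have le : ∀ x ∈ Lam Θ, ∀ j, (x (Fin.castAdd a j)).re ≤ 0 := fun x hx j => by
    have ns : ∀ n : ℕ, n • x ∈ Lam Θ := fun n => by
      induction n with
      | zero => rwa [zero_smul]
      | succ n ih =>
        rw [succ_nsmul, ← sub_neg_eq_add]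
        exact ls _ ih _ (ng x hx)
    by_contra hn
    obtain ⟨n, h⟩ := exists_lt_nsmul (not_le.1 hn) B
    have := hB _ (ns n) j
    rw [Pi.smul_apply, Complex.re_nsmul] at this
    exact h.not_ge this
  intro x hx j
  have := le _ (ng x hx) j
  rw [Pi.neg_apply, Complex.neg_re] at this
  linarith [le x hx j]

theorem sGA2 : SGA2 := by
  intro t a M w ϑ h g
  have hs : ∀ p q, ∃ S, GA2Val (TH w ϑ) S ∧
      ∃ c, eval (Sum.elim (TH w ϑ p) (TH w ϑ q)) (S c) ≠ 0 := fun p q => by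
    obtain ⟨S, d, e, h1, h2, h3⟩ := h.sub (fun j => p (Fin.castAdd a j))
      (fun i => p (Fin.natAdd t i)) (fun j => q (Fin.castAdd a j)) fun i => q (Fin.natAdd t i)
    exact ⟨S, ⟨⟨d, e, h1⟩, fun p q => h3 _ _ _ _⟩, h2⟩
  have ls : ∀ x ∈ Lam (TH w ϑ), ∀ y ∈ Lam (TH w ϑ), x - y ∈ Lam (TH w ϑ) := fun x hx y hy => by
    have := GA2_rsub g hs (p' := 0) (q' := 0) hx hy
    rwa [sub_zero] at this
  have lr := GA2_lre g ls
  refine ⟨g, GA2_sub hs, fun p q => ⟨fun e => ?_, fun e => ?_⟩, ls, lr, ?_⟩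
  · have := GA2_rsub g hs e (GA2_refl q)
    rwa [sub_self] at this
  · have := GA2_rsub g hs (q' := 0) (GA2_refl p) e
    rw [sub_sub_cancel, sub_zero] at this
    exact GA2_symm g this
  obtain ⟨R, hR⟩ := h.per
  have pi0 := Real.pi_pos
  refine ⟨max R Real.pi, fun p => ?_⟩
  obtain ⟨s, β, l, e, hn⟩ := hR fun i => p (Fin.natAdd t i)
  have x0 : Fin.append s β ∈ Lam (TH w ϑ) := ⟨l, by
    simp only [TH, Fin.append_left, Fin.append_right]
    exact e⟩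
  obtain ⟨m, hm⟩ : ∃ m : Fin t → ℤ, ∀ j,
      m j = round (((p (Fin.castAdd a j)).im - (s j).im) / (2 * Real.pi)) := ⟨_, fun _ => rfl⟩
  refine ⟨Fin.append s β + inT a fun j => m j * (2 * Real.pi * Complex.I), ?_, ?_⟩
  · obtain ⟨l, hl⟩ := x0
    refine ⟨l, hl ▸ funext fun c => ?_⟩
    rw [g.act]
    cases w c <;> simp
  rw [pi_norm_le_iff_of_nonneg (pi0.le.trans (le_max_right _ _))]
  intro i
  refine Fin.addCases (fun j => le_max_of_le_right ?_) (fun i => le_max_of_le_left ?_) i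
  · have r0 := lr _ x0 j
    rw [Fin.append_left] at r0
    have r1 := abs_sub_round (((p (Fin.castAdd a j)).im - (s j).im) / (2 * Real.pi))
    rw [← hm] at r1
    refine (Complex.norm_le_abs_re_add_abs_im _).trans ?_
    have e1 : ((p - reT p - (Fin.append s β + inT a fun j =>
        m j * (2 * Real.pi * Complex.I))) (Fin.castAdd a j)).re = 0 := by
      simp [reT, GA2_inT_left, r0]
    have e2 : ((p - reT p - (Fin.append s β + inT a fun j =>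
        m j * (2 * Real.pi * Complex.I))) (Fin.castAdd a j)).im = 2 * Real.pi *
          (((p (Fin.castAdd a j)).im - (s j).im) / (2 * Real.pi) - m j) := by
      rw [mul_sub, mul_div_cancel₀ _ (by positivity)]
      simp [reT, GA2_inT_left]
      ring
    rw [e1, e2, abs_zero, zero_add, abs_mul, abs_of_pos (by positivity : 0 < 2 * Real.pi)]
    nlinarith
  · refine le_trans (le_of_eq ?_) ((norm_le_pi_norm _ i).trans hn)
    simp [reT, GA2_inT_right]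

end Pool.Agent.MP_c69980_ag.H43
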