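import Pool.Agent.MP_c69980_ag.H43.Spec4

/-!
The final contradiction, by Jensen's formula.
-/

set_option autoImplicit false

namespace Pool.Agent.MP_c69980_ag.H43

open MvPolynomial H60 Finset Filter Topology Metric Real

lemma jen_hol {N : ℕ} (c : Fin N → ℂ) (s : Finset (Fin N)) (R : ℝ) :
    Hol R fun z => ∏ i ∈ s, (z - c i) :=
  (Differentiable.fun_finsetProd fun i _ => differentiable_id.sub_const (c i)).differentiableOn

lemma jen_av {N : ℕ} (c : Fin N → ℂ) (s : Finset (Fin N)) {ρ : ℝ} (h : 0 < ρ) :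
    av (fun z => ∏ i ∈ s, (z - c i)) ρ = ∑ i ∈ s, log (max ρ ‖c i‖) := by
  have h1 := av_eq (f := fun z => ∏ i ∈ s, (z - c i)) (g := fun _ => 1) (R := ρ + 1) (ρ₀ := ρ)
    (a := fun j => c (s.equivFin.symm j)) (differentiableOn_const _) (fun z => by
      rw [mul_one, ← prod_coe_sort s]
      exact (s.equivFin.symm.prod_comp fun i => z - c i).symm)
    (fun _ _ => one_ne_zero) h le_rfl (by linarith)
  rw [h1, norm_one, log_one, zero_add, ← sum_coe_sort s]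
  exact s.equivFin.symm.sum_comp fun i => log (max ρ ‖c i‖)

open Classical in
lemma jen_cmp {R r ρ : ℝ} {q G g : ℂ → ℂ} {N : ℕ} {c : Fin N → ℂ} (hq : Hol R q) (hG : Hol R G)
    (hg : Hol R g) (nq : NZ R q) (G0 : G 0 ≠ 0) (he : ∀ z, q z = (∏ i, (z - c i)) * g z)
    (h0 : ∀ z, ‖z‖ ≤ ρ → g z ≠ 0) (h1 : 1 ≤ r) (h2 : r < ρ) (h3 : ρ < R) :
    av q r - av q 1 ≤ av G r - av G 1 + ∑ i ∈ univ.filter (fun i => ‖c i‖ ≤ r ∧
      ¬ meromorphicOrderAt q (c i) ≤ meromorphicOrderAt G (c i)),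
      (log r - log (max 1 ‖c i‖)) := by
  set s := univ.filter fun i => ¬ meromorphicOrderAt q (c i) ≤ meromorphicOrderAt G (c i) with hs
  have sub : ball (0 : ℂ) ρ ⊆ ball 0 R := ball_subset_ball h3.le
  have ρ0 : 0 < ρ := by linarith
  have hq' : Hol ρ q := hq.mono sub
  have hG' : Hol ρ G := hG.mono sub
  have hE := jen_hol c s ρ
  have nG : NZ ρ G := ⟨0, mem_ball_self ρ0, G0⟩
  obtain ⟨x, hx1, hx2⟩ := ((nq.ev hq (mem_ball_self (ρ0.trans h3))).and
    (mem_nhdsWithin_of_mem_nhds (ball_mem_nhds (0 : ℂ) ρ0))).exists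
  have nE : NZ ρ fun z => ∏ i ∈ s, (z - c i) := ⟨x, hx2, prod_ne_zero_iff.2 fun i _ =>
    prod_ne_zero_iff.1 (left_ne_zero_of_mul (he x ▸ hx1)) i (mem_univ _)⟩
  have e3 := av_cmp (f := q) (g := fun z => G z * ∏ i ∈ s, (z - c i)) hq' (hG'.mul hE)
    ⟨x, hx2, hx1⟩ (nG.mul hG' hE nE) (fun z hz => by
      rw [fun_meromorphicOrderAt_mul (hG'.at hz).meromorphicAt (hE.at hz).meromorphicAt]
      by_cases h : meromorphicOrderAt q z ≤ meromorphicOrderAt G z
      · exact le_add_of_le_of_nonneg h (hE.at hz).meromorphicOrderAt_nonneg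
      · have hh : Hol ρ fun z => (∏ i ∈ sᶜ, (z - c i)) * g z := (jen_hol c sᶜ ρ).mul (hg.mono sub)
        have e : q = fun z => (∏ i ∈ s, (z - c i)) * ((∏ i ∈ sᶜ, (z - c i)) * g z) := by
          funext u
          rw [he, ← mul_assoc, prod_mul_prod_compl]
        have e' : meromorphicOrderAt (fun z => (∏ i ∈ sᶜ, (z - c i)) * g z) z = 0 := by
          refine (hh.at hz).meromorphicNFAt.meromorphicOrderAt_eq_zero_iff.2 (mul_ne_zero
            (prod_ne_zero_iff.2 fun i hi => sub_ne_zero.2 fun e'' => ?_)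
            (h0 z (mem_ball_zero_iff.1 hz).le))
          exact (mem_compl.1 hi) (mem_filter.2 ⟨mem_univ _, e'' ▸ h⟩)
        conv_lhs => rw [e]
        rw [fun_meromorphicOrderAt_mul (hE.at hz).meromorphicAt (hh.at hz).meromorphicAt, e',
          add_zero]
        exact le_add_of_nonneg_left (hG'.at hz).meromorphicOrderAt_nonneg) h1 h2
  rw [av_mul hG' hE nG nE (by linarith) h2, av_mul hG' hE nG nE one_pos (by linarith),
    jen_av c s (by linarith), jen_av c s one_pos] at e3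
  have e4 : ∑ i ∈ s, log (max r ‖c i‖) - ∑ i ∈ s, log (max 1 ‖c i‖) =
      ∑ i ∈ univ.filter (fun i => ‖c i‖ ≤ r ∧
        ¬ meromorphicOrderAt q (c i) ≤ meromorphicOrderAt G (c i)),
        (log r - log (max 1 ‖c i‖)) := by
    rw [← sum_sub_distrib, hs, sum_filter, sum_filter]
    refine sum_congr rfl fun i _ => ?_
    by_cases a : meromorphicOrderAt q (c i) ≤ meromorphicOrderAt G (c i)
    · rw [if_neg (not_not.2 a), if_neg fun h => h.2 a]
    · rw [if_pos a]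
      by_cases b : ‖c i‖ ≤ r
      · rw [if_pos ⟨b, a⟩, max_eq_left b]
      · rw [if_neg fun h => b h.1, max_eq_right (not_le.1 b).le,
          max_eq_right (h1.trans (not_le.1 b).le), sub_self]
  linarith

lemma jen_root {M d : ℕ} {G q : ℂ} {y : Fin M → ℂ} {P : Fin M → ℕ → ℂ} (hq : q ≠ 0)
    (h : ∀ c, (G * y c) ^ d + ∑ i ∈ range d, P c i * q ^ (d - i - 1) * (G * y c) ^ i = 0) :
    ‖G‖ * ‖y‖ ≤ (1 + ∑ c, ∑ i ∈ range d, ‖P c i / q‖) * ‖q‖ := by
  have q0 := norm_pos_iff.2 hq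
  rw [← norm_smul, pi_norm_le_iff_of_nonneg (by positivity)]
  intro c
  refine (root_le (p := fun i => P c i * q ^ (d - i - 1)) (c := fun i => ‖P c i / q‖) q0
    (fun _ => norm_nonneg _) (h c) fun i hi => le_of_eq ?_).trans ?_
  · obtain ⟨j, rfl⟩ := Nat.exists_eq_add_of_lt hi
    rw [add_assoc, Nat.add_sub_cancel_left, Nat.add_sub_cancel, norm_mul, norm_pow, norm_div]
    field_simp
    ring
  · have := single_le_sum (f := fun c => ∑ i ∈ range d, ‖P c i / q‖)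
      (fun c _ => sum_nonneg fun _ _ => norm_nonneg _) (mem_univ c)
    gcongr

theorem sJen : SJen := by
  classical
  intro t a M w Θ k A κ hκ G _ q0 hG h0 hS hF
  set q := A.fe κ.Q hκ.cQ with hq
  obtain ⟨ε₀, p0, lo⟩ := A.lo
  obtain ⟨b, low⟩ := A.low
  set C : ℝ := (Fintype.card (Cht M t) : ℝ) with hC
  have C0 : 0 ≤ C := Nat.cast_nonneg _
  set ε := ε₀ / (4 + C) with hε
  have ε0 : 0 < ε := by positivity
  have εe : ε₀ = ε * (4 + C) := by rw [hε]; field_simp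
  have S1 : Sm A.U A.r A.τ ((fun n z => ‖(1 : A.V).1 n z‖) + ∑ c, ∑ i ∈ range κ.d,
      fun n z => ‖(A.fe _ (hκ.cP c i)).1 n z / q.1 n z‖) :=
    Sm.add A.τtop A.S.one_mem (Sm.sum A.τtop _ fun c _ => Sm.sum A.τtop _ fun i _ => hS c i)
  set Γ := (fun n z => ‖(1 : A.V).1 n z‖) + ∑ c, ∑ i ∈ range κ.d,
      fun n z => ‖(A.fe _ (hκ.cP c i)).1 n z / q.1 n z‖ with hΓ
  have few : ∀ β : Cht M t, ∀ᶠ n in A.U, ∀ (N : ℕ) (c : Fin N → ℂ) (g : ℂ → ℂ), Hol (A.R n) g →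
      (∀ z, q.1 n z = (∏ i, (z - c i)) * g z) → (∀ z, ‖z‖ ≤ A.r n + A.η n / 2 → g z ≠ 0) →
      ∀ s : Finset (Fin N), (∀ i ∈ s, ‖c i‖ ≤ A.r n ∧
        ¬ meromorphicOrderAt (q.1 n) (c i) ≤ meromorphicOrderAt (G n) (c i) ∧
        ∀ o, w (β o) = o ∧ exp (-A.τ n ^ b) ≤ ‖Θ (A.p n (c i)) (β o)‖) →
      ∑ i ∈ s, (log (A.r n) - log (max 1 ‖c i‖)) ≤ ε * A.τ n := by
    intro β
    by_cases hβ : ∀ o, w (β o) = o ∧ A.θ (β o) ∉ A.P
    · filter_upwards [hF β hβ (b + 1) ε ε0, A.τtop.eventually_ge_atTop (t + 1)] with n h1 h2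
      intro N c g g1 g2 g3 s hs
      refine h1 N c g g1 g2 g3 s fun i hi => ?_
      obtain ⟨h3, h4, h5⟩ := hs i hi
      have h6 : Ch w β (Θ (A.p n (c i))) := fun o =>
        ⟨(h5 o).1, norm_pos_iff.1 ((exp_pos _).trans_le (h5 o).2)⟩
      have h7 := ((hG n).bad (c i) (mem_ball_zero_iff.2 (h3.trans_lt (A.rR n)))).resolve_left
        (by rwa [hq, A.fe_fun] at h4)
      refine ⟨h3, ⟨h6, h7.1, h7.2 β h6⟩, ?_⟩
      rw [A.ch_apply, norm_prod]
      refine le_trans ?_ (prod_le_prod (fun o _ => (exp_pos _).le) fun o _ => (h5 o).2)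
      rw [prod_const, card_univ, Fintype.card_option, Fintype.card_fin, ← exp_nat_mul, exp_le_exp,
        pow_succ]
      have h8 : 0 ≤ A.τ n ^ b := pow_nonneg (by linarith [(A.num n).2.2.2.2]) _
      push_cast
      nlinarith
    · have h1 : ∀ᶠ n in A.U, ∀ z, ‖z‖ ≤ A.r n →
          ¬ ∀ o, w (β o) = o ∧ exp (-A.τ n ^ b) ≤ ‖Θ (A.p n z) (β o)‖ := by
        obtain ⟨o, ho⟩ := not_forall.1 hβ
        by_cases h2 : w (β o) = o
        · filter_upwards [A.tiny _ (not_not.1 fun h => ho ⟨h2, h⟩) (b + 1),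
            A.τtop.eventually_gt_atTop 1] with n h3 h4 z hz h5
          have h6 := (h5 o).2.trans (h3 z (by linarith [(A.num n).2.1]))
          rw [exp_le_exp, pow_succ] at h6
          nlinarith [pow_pos (zero_lt_one.trans h4) b]
        · exact Eventually.of_forall fun n z _ h => h2 (h o).1
      filter_upwards [h1] with n h1 N c g _ _ _ s hs
      rw [eq_empty_of_forall_notMem fun i hi => h1 _ (hs i hi).1 (hs i hi).2.2, sum_empty]
      exact mul_nonneg ε0.le (by linarith [(A.num n).2.2.2.2])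
  obtain ⟨n, ⟨⟨⟨a1, a2⟩, a3⟩, ⟨a4, a5⟩, a6, -⟩, a7, a8, a9⟩ := (((lo.and low).and
    ((S1 ε ε0).and (A.big q q0 1 one_pos))).and ((eventually_all.2 few).and
      ((A.up1 q q.2 ε ε0).and (A.Lsm ε ε0)))).exists
  obtain ⟨r1, η0, -, rη, τ1⟩ := A.num n
  have r0 := A.r0 n
  have rR := A.rR n
  have hol := A.hol q q.2 n
  have hG1 := (hG n).hol
  have G0 : G n 0 ≠ 0 := norm_pos_iff.1 ((exp_pos _).trans_le (h0 n))
  have nG : NZ (A.R n) (G n) := ⟨0, mem_ball_self (by linarith), G0⟩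
  have e2 : av (G n) (A.r n) + circleAverage (fun z => log ‖Θ (A.p n z)‖) 0 (A.r n) ≤
      ε * A.τ n + av (q.1 n) (A.r n) := by
    have b3 := avg_mono_off ((zeros_fin hol a6 rR).union (zeros_fin hG1 nG rR)) r0
      ((hG1.int r0 rR).add a1) ((pl_int a4).add (hol.int r0 rR)) fun z hz hZ => by
        have zb : z ∈ ball (0 : ℂ) (A.R n) := mem_ball_zero_iff.2 (hz ▸ rR)
        have n1 : q.1 n z ≠ 0 := fun e => hZ (Or.inl ⟨hz.le, e⟩)
        have n3 : 0 < ‖G n z‖ := norm_pos_iff.2 fun e => hZ (Or.inr ⟨hz.le, e⟩)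
        obtain ⟨c, -, hc⟩ := a3 z (by linarith) none
        have n2 : 0 < ‖Θ (A.p n z)‖ := (exp_pos _).trans_le (hc.trans (norm_le_pi_norm _ c))
        have c1 : ‖G n z‖ * ‖Θ (A.p n z)‖ ≤ Γ n z * ‖q.1 n z‖ := by
          refine (jen_root (d := κ.d) (P := fun c i => (A.fe _ (hκ.cP c i)).1 n z) n1
            fun c => ?_).trans (le_of_eq ?_)
          · simp only [hq, A.fe_apply]
            exact (hG n).eq c z zb
          · simp only [hΓ, Pi.add_apply, Finset.sum_apply, OneMemClass.coe_one, Pi.one_apply,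
              norm_one]
        have c2 := Dat.log_le_pl (c := log ‖q.1 n z‖) (mul_pos n3 n2)
          (by rwa [exp_log (norm_pos_iff.2 n1)])
        rwa [log_mul n3.ne' n2.ne'] at c2
    rw [circleAverage_add (hG1.int r0 rR) a1, circleAverage_add (pl_int a4) (hol.int r0 rR)] at b3
    unfold av
    linarith
  obtain ⟨N, c, g, -, g1, g2, g3⟩ := factor hol a6 (ρ := A.r n + A.η n / 2) (by linarith)
  have e3 := jen_cmp hol hG1 g1 a6 G0 g2 g3 r1 (by linarith) (by linarith)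
  set s := univ.filter fun i => ‖c i‖ ≤ A.r n ∧
    ¬ meromorphicOrderAt (q.1 n) (c i) ≤ meromorphicOrderAt (G n) (c i) with hs
  have hβ : ∀ i : s, ∃ β : Cht M t, ∀ o, w (β o) = o ∧
      exp (-A.τ n ^ b) ≤ ‖Θ (A.p n (c i)) (β o)‖ := fun i => by
    choose β h1 h2 using a3 (c i) (by linarith [(mem_filter.1 i.2).2.1])
    exact ⟨β, fun o => ⟨h1 o, h2 o⟩⟩
  obtain ⟨β₀, -⟩ : ∃ β : Cht M t, True := by
    choose β _ _ using a3 0 (by rw [norm_zero]; linarith)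
    exact ⟨β, trivial⟩
  have hβ' : ∀ i, ∃ β : Cht M t, i ∈ s → ∀ o, w (β o) = o ∧
      exp (-A.τ n ^ b) ≤ ‖Θ (A.p n (c i)) (β o)‖ := fun i => by
    by_cases h : i ∈ s
    · exact (hβ ⟨i, h⟩).imp fun _ h _ => h
    · exact ⟨β₀, fun h' => absurd h' h⟩
  choose β hβ' using hβ'
  have e4 : ∑ i ∈ s, (log (A.r n) - log (max 1 ‖c i‖)) ≤ C * (ε * A.τ n) := by
    rw [← sum_fiberwise s β, hC, ← nsmul_eq_mul, ← card_univ, ← sum_const]
    refine sum_le_sum fun γ _ => a7 γ N c g g1 g2 g3 _ fun i hi => ?_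
    obtain ⟨h1, rfl⟩ := mem_filter.1 hi
    exact ⟨(mem_filter.1 h1).2.1, (mem_filter.1 h1).2.2, hβ' i h1⟩
  have e5 : av (q.1 n) 1 ≤ ε * A.τ n := av_le hol a6 one_pos (by linarith) fun z hz => a8 z hz.le
  have e6 : -A.L n ≤ av (G n) 1 := le_trans ((le_log_iff_exp_le (norm_pos_iff.2 G0)).2 (h0 n))
    (le_av hG1 one_pos (by linarith) G0)
  rw [εe] at a2
  nlinarith [mul_pos ε0 (zero_lt_one.trans_le τ1)]

end Pool.Agent.MP_c69980_ag.H43
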