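import Pool.Agent.MP_c69980_ag.H43.Spec5

/-!
Lifts of points and discs of `U` to the universal cover, and derivatives along discs.
-/

set_option autoImplicit false

namespace Pool.Agent.MP_c69980_ag.H43

open MvPolynomial H60 Finset Filter Topology Metric

section
variable {t a M n : ℕ} {K : Type} [Field K] [Algebra ℂ K] {w : Fin M → Option (Fin t)}
  {Θ : Pt t a → Fin M → ℂ} {U : Set (PS n)} {z : Fin n → K} {u : Fin M → K} {y : Fin n → ℂ}
  {g : K}

lemma lfe_zero (hy : On z y) : vl z 0 y = 0 := by simpa using (vl_const hy 0).2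

lemma lfe_one (hy : On z y) : vl z 1 y = 1 := by simpa using (vl_const hy 1).2

lemma lfe_inv (hy : On z y) (h : Reg z y g) (h0 : vl z g y ≠ 0) : Reg z y g⁻¹ := by
  obtain ⟨F, G, d, hF, hG, hx, rfl⟩ := h
  rw [vl_eq hy hF hG hx] at h0
  exact ⟨G, F, d, hG, hF, fun e => h0 (by rw [e, zero_div]), inv_div _ _⟩

lemma lfe_open {R : ℝ} {x : ℂ → Fin n → ℂ} {ζ : ℂ} (hx : Dk U 0 R x) (hζ : ζ ∈ ball (0 : ℂ) R)
    (h : Reg z (x ζ) g) : ∀ᶠ s in 𝓝 ζ, Reg z (x s) g := by
  obtain ⟨F, G, d, hF, hG, h1, rfl⟩ := h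
  exact ((Hol.at (eval_diff hx.1 G) hζ).continuousAt.eventually_ne h1).mono fun s hs =>
    ⟨F, G, d, hF, hG, hs, rfl⟩

lemma lfe_good (h : Mp w Θ U z u) (hy : y ∈ Cone U) (o : Option (Fin t)) :
    ∃ b, w b = o ∧ u b ≠ 0 ∧ ∀ c, Reg z y (u c / u b) := by
  obtain ⟨b, h1, h2, h3⟩ := h.hr _ hy.2 o
  refine ⟨b, h1, h2, fun c => ?_⟩
  obtain ⟨F, G, d, hF, hG, h4, h5⟩ :=
    (mem_locRing (fun G d hG h' => (h.gen.1 G d hG).1 h' _ hy.2) _).1 (h3 c)
  exact ⟨F, G, d, hF, hG, (eval_mk hG hy.1).not.1 h4, h5⟩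

lemma lfe_of (hy : On z y) {b : Fin M} (hr : ∀ c, Reg z y (u c / u b)) {p : Pt t a}
    (h : ∀ c, Θ p c = vl z (u c / u b) y * Θ p b) : Lf z u Θ y p := fun c b' h1 h2 => by
  have h3 := (vl_mul hy h2 (hr b')).2
  rw [div_mul_div_cancel₀ h1] at h3
  rw [h c, h b', h3, mul_assoc]

lemma lfe_smul {p p' : Pt t a} {l : ℂ} (h : Lf z u Θ y p) (e : Θ p' = l • Θ p) :
    Lf z u Θ y p' := fun c b h1 h2 => by
  rw [e, Pi.smul_apply, Pi.smul_apply, h c b h1 h2, smul_eq_mul, smul_eq_mul, mul_left_comm]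

lemma lfe_eval (hy : On z y) {b : Fin M} (hr : ∀ c, Reg z y (u c / u b)) {F : PR M} {d : ℕ}
    (hF : F.IsHomogeneous d) (h : aeval u F = 0) :
    eval (fun c => vl z (u c / u b) y) F = 0 := by
  rw [← (vl_aeval hy hr F).2]
  simp only [div_eq_inv_mul]
  rw [aeval_scale hF, h, mul_zero, lfe_zero hy]

lemma lfe_ne (hb : ∀ p o, ∃ b, w b = o ∧ Θ p b ≠ 0) {p : Pt t a} (h : Lf z u Θ y p) {b : Fin M}
    (h0 : u b ≠ 0) (hr : ∀ c, Reg z y (u c / u b)) : Θ p b ≠ 0 := fun e => by
  obtain ⟨c, -, hc⟩ := hb p none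
  exact hc (by rw [h c b h0 (hr c), e, mul_zero])

lemma lfe_ex (g1 : GA1 w Θ) (h : Mp w Θ U z u) (hy : y ∈ Cone U) : ∃ p, Lf z u Θ y p := by
  have on := Cone.on h.gen hy
  obtain ⟨b, -, h1, h2⟩ := lfe_good h hy none
  obtain ⟨p, l, e⟩ := g1.cl (fun c => vl z (u c / u b) y) (fun o => by
    obtain ⟨b', h3, h4, h5⟩ := lfe_good h hy o
    have h6 := (vl_mul on (h2 b') (h5 b)).2
    rw [div_mul_div_cancel₀ h1, div_self h4, lfe_one on] at h6
    exact ⟨b', h3, left_ne_zero_of_mul_eq_one h6.symm⟩)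
    fun F d hF _ h3 => lfe_eval on h2 hF (h.hu F d hF h3)
  have e' : ∀ c, vl z (u c / u b) y = l * Θ p c := congrFun e
  have e1 := e' b
  rw [div_self h1, lfe_one on] at e1
  exact ⟨p, lfe_of on h2 fun c => by rw [e', mul_right_comm, ← e1, one_mul]⟩

end

theorem sLfe : SLfe := by
  intro t a M n w Θ K _ _ U z u g hL h
  have hz := h.gen
  refine ⟨fun y hy p hp β hβ => ?_, fun y hy p hp β hβ hr o => ?_, fun y hy p hp F d hF h0 => ?_,
    fun y hy => lfe_ex g.toGA1 h hy, fun y p p' hp hl => ?_, fun R x p₀ R0 hx hp => ?_⟩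
  · have on := Cone.on hz hy
    obtain ⟨b, -, h1, h2⟩ := lfe_good h hy none
    have h3 : ∀ o, vl z (u (β o) / u b) y ≠ 0 := fun o e =>
      (hβ o).2 (by rw [hp _ b h1 (h2 _), e, zero_mul])
    have h4 : ∀ o, u (β o) ≠ 0 := fun o e => h3 o (by rw [e, zero_div, lfe_zero on])
    refine ⟨fun o => ⟨(hβ o).1, h4 o⟩, fun x => ?_⟩
    have h5 := (vl_mul on (h2 x.1) (lfe_inv on (h2 _) (h3 x.2))).1
    rw [inv_div, div_mul_div_cancel₀ h1] at h5
    exact ⟨h5, (eq_div_iff (hβ x.2).2).2 (hp _ _ (h4 _) h5).symm⟩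
  · exact ⟨(hβ o).1, lfe_ne g.blk hp (hβ o).2 fun c => hr (c, o)⟩
  · have on := Cone.on hz hy
    obtain ⟨b, -, h1, h2⟩ := lfe_good h hy none
    have e : Θ p = Θ p b • fun c => vl z (u c / u b) y := funext fun c => by
      rw [hp c b h1 (h2 c), Pi.smul_apply, smul_eq_mul, mul_comm]
    rw [e, eval_smul_hom hF, lfe_eval on h2 hF h0, mul_zero]
  · obtain ⟨l, e⟩ := (g.par p p').2 hl
    obtain ⟨c, -, hc⟩ := g.blk p none
    have l0 : l ≠ 0 := fun e' => hc (by rw [e, e', zero_smul, Pi.zero_apply])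
    exact lfe_smul hp (l := l⁻¹) (by rw [e, smul_smul, inv_mul_cancel₀ l0, one_smul])
  · choose! P hP using fun s (hs : s ∈ ball (0 : ℂ) R) => lfe_ex g.toGA1 h (hx.2 s hs)
    have m0 := mem_ball_self (x := (0 : ℂ)) R0
    obtain ⟨p, h1, h2, h3⟩ := hL R (fun s => Θ (P s)) p₀ R0
      (fun s _ => ⟨P s, 1, (one_smul _ _).symm⟩) (fun s₀ hs₀ => by
        obtain ⟨b, -, h1, h2⟩ := lfe_good h (hx.2 s₀ hs₀) none
        refine ⟨fun s c => vl z (u c / u b) (x s),
          analyticAt_pi_iff.2 fun c => hx.an hz hs₀ (h2 c), ?_⟩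
        filter_upwards [eventually_all.2 fun c => lfe_open hx hs₀ (h2 c),
          isOpen_ball.mem_nhds hs₀] with s h3 h4
        have h5 := lfe_ne g.blk (hP s h4) h1 h3
        refine ⟨fun e => ?_, (Θ (P s) b)⁻¹, funext fun c => ?_⟩
        · have h6 : vl z (u b / u b) (x s) = 0 := congrFun e b
          rw [div_self h1, lfe_one (Cone.on hz (hx.2 s h4))] at h6
          exact one_ne_zero h6
        · rw [Pi.smul_apply, smul_eq_mul, hP s h4 c b h1 (h3 c)]
          field_simp) (by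
        obtain ⟨b, -, h1, h2⟩ := lfe_good h (hx.2 0 m0) none
        have h5 := lfe_ne g.blk (hP 0 m0) h1 h2
        refine ⟨Θ p₀ b / Θ (P 0) b, funext fun c => ?_⟩
        rw [Pi.smul_apply, smul_eq_mul, hP 0 m0 c b h1 (h2 c), hp c b h1 (h2 c)]
        field_simp)
    exact ⟨p, h1, h2, fun s hs => (h3 s hs).elim fun l e => lfe_smul (hP s hs) e⟩

lemma derb_chain {ι : Type} [Fintype ι] [DecidableEq ι] {x : ℂ → ι → ℂ} {v : ι → ℂ} {z : ℂ}
    (h : HasDerivAt x v z) (P : MvPolynomial ι ℂ) :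
    HasDerivAt (fun z => eval (x z) P) (∑ j, eval (x z) (pderiv j P) * v j) z := by
  induction P using MvPolynomial.induction_on with
  | C c => simpa using hasDerivAt_const z c
  | add p q hp hq => simpa [add_mul, sum_add_distrib] using hp.fun_add hq
  | mul_X p i hp =>
    have := hp.fun_mul (hasDerivAt_pi.1 h i)
    simp only [map_mul, eval_X]
    refine this.congr_deriv ?_
    simp only [Derivation.leibniz, smul_eq_mul, map_add, map_mul, add_mul, sum_add_distrib, eval_X,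
      pderiv_X, mul_assoc, ← mul_sum]
    simp [Pi.single_apply, apply_ite (eval (x z)), mul_comm, add_comm]

lemma derb_poly {K ι : Type} [Field K] [Algebra ℂ K] (v : ι → K) {g : K}
    (h : IsAlgebraic (Algebra.adjoin ℂ (Set.range v)) g) :
    ∃ P : MvPolynomial (Option ι) ℂ, aeval (fun o : Option ι => o.elim g v) P = 0 ∧
      aeval (fun o : Option ι => o.elim g v) (pderiv none P) ≠ 0 := by
  classical
  have : CharZero K := charZero_of_injective_algebraMap (algebraMap ℂ K).injective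
  have e : ∀ q : Polynomial (Algebra.adjoin ℂ (Set.range v)), ∃ P : MvPolynomial (Option ι) ℂ,
      aeval (fun o : Option ι => o.elim g v) P = q.aeval g ∧
      aeval (fun o : Option ι => o.elim g v) (pderiv none P) = q.derivative.aeval g := fun q => by
    induction q using Polynomial.induction_on' with
    | add p q hp hq =>
      obtain ⟨P, a, b⟩ := hp
      obtain ⟨Q, c, d⟩ := hq
      exact ⟨P + Q, by simp [a, c], by simp [b, d]⟩
    | monomial m c =>
      obtain ⟨c', hc⟩ : (c : K) ∈ (aeval v : MvPolynomial ι ℂ →ₐ[ℂ] K).range :=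
        Algebra.adjoin_range_eq_range_aeval ℂ v ▸ c.2
      have a : pderiv none (rename some c' : MvPolynomial (Option ι) ℂ) = 0 :=
        pderiv_eq_zero_of_notMem_vars fun h => by simpa using vars_rename _ _ h
      have b : aeval (fun o : Option ι => o.elim g v) (rename some c') = algebraMap _ K c := by
        rw [aeval_rename]; exact hc
      exact ⟨rename some c' * X none ^ m, by simp [b],
        by simp [a, b, Derivation.leibniz_pow, Polynomial.derivative_monomial, mul_assoc]⟩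
  have key : ∀ m, ∀ q : Polynomial (Algebra.adjoin ℂ (Set.range v)), q.natDegree < m → q ≠ 0 →
      q.aeval g = 0 → ∃ q : Polynomial (Algebra.adjoin ℂ (Set.range v)),
        q.aeval g = 0 ∧ q.derivative.aeval g ≠ 0 := fun m => by
    induction m with
    | zero => simp
    | succ m ih =>
      intro q h1 h2 h3
      by_cases h4 : q.derivative.aeval g = 0
      · have h5 : q.natDegree ≠ 0 := fun e => by
          rw [Polynomial.eq_C_of_natDegree_eq_zero e, Polynomial.aeval_C,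
            map_eq_zero_iff _ Subtype.val_injective] at h3
          exact h2 (by rw [Polynomial.eq_C_of_natDegree_eq_zero e, h3, map_zero])
        exact ih _ ((Polynomial.natDegree_derivative_lt h5).trans_le (by omega))
          (fun e => h5 (Polynomial.derivative_eq_zero.1 e)) h4
      · exact ⟨q, h3, h4⟩
  obtain ⟨q, q1, q2⟩ := h
  obtain ⟨q, q1, q2⟩ := key _ q (Nat.lt_succ_self _) q1 q2
  obtain ⟨P, a, b⟩ := e q
  exact ⟨P, a.trans q1, b ▸ q2⟩

theorem sDerb : SDerb := by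
  classical
  intro t a M n w Θ PP K _ _ U z u g1 der h lf g
  have hz := h.gen
  obtain ⟨β, hβ⟩ := h.ch
  have e0 : K0 u = IntermediateField.adjoin ℂ (Set.range (co β u)) := by
    refine le_antisymm (IntermediateField.adjoin_le_iff.2 ?_)
      (IntermediateField.adjoin.mono _ _ _ ?_)
    · rintro _ ⟨c, b, rfl⟩
      rw [div_eq_co hβ]
      exact div_mem (IntermediateField.subset_adjoin _ _ ⟨_, rfl⟩)
        (IntermediateField.subset_adjoin _ _ ⟨_, rfl⟩)
    · rintro _ ⟨x, rfl⟩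
      exact co_mem β u x
  have hf := h.hf
  rw [e0] at hf
  obtain ⟨P, h1, h2⟩ := derb_poly (co β u)
    (IntermediateField.isAlgebraic_adjoin_iff.1 (hf.isAlgebraic g))
  set v : Option (CI M t) → K := fun o => o.elim g (co β u) with hv
  let W := fun l => aeval v (pderiv l P)
  let T := fun (j : CI M t) i => aeval (co β u) (PP β i j)
  refine (((Gn.val hz g).and (Gn.all fun j => Gn.val hz (co β u j))).and ((Gn.val hz (W none)).and
    (Gn.all fun κ : CI M t × Fin (t + a) => Gn.val hz (W (some κ.1) * T κ.1 κ.2)))).imp fun L =>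
      (eventually_ge_atTop (Real.exp L * (Fintype.card (CI M t × Fin (t + a)) * L))).mono ?_
  rintro L' hL _ hy ⟨⟨⟨a1, -⟩, a4⟩, ⟨-, -, a2⟩, a3⟩ R x p R0 hx rfl hp e
  have m0 := mem_ball_self (x := (0 : ℂ)) R0
  have n0 := isOpen_ball.mem_nhds m0
  have r1 : ∀ j, Reg z (x 0) (co β u j) := fun j => (a4 j).1
  have r0 : ∀ l, Reg z (x 0) (v l) := fun l => by
    cases l with
    | none => exact a1
    | some j => exact r1 j
  have c0 := lf.ch _ (hx.2 0 m0) _ (e 0 m0) β hβ r1
  have dp := (hp.differentiableAt n0).hasDerivAt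
  have dΘ : ∀ c, DifferentiableAt ℂ (fun q => Θ q c) (p 0) := fun c =>
    differentiableAt_pi.1 (g1.hol _) c
  have c1 : ∀ᶠ s in 𝓝 (0 : ℂ), ∀ j, vl z (co β u j) (x s) = co β (Θ (p s)) j := by
    filter_upwards [n0, eventually_all.2 fun o =>
      ((dΘ (β o)).continuousAt.comp dp.continuousAt).eventually_ne (c0 o).2] with s h3 h4 j
    exact ((lf.val _ (hx.2 s h3) _ (e s h3) β fun o => ⟨(c0 o).1, h4 o⟩).2 j).2
  have d1 := derb_chain (x := fun s l => vl z (v l) (x s)) (hasDerivAt_pi.2 fun l =>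
    (hx.an hz m0 (r0 l)).differentiableAt.hasDerivAt) P
  have d3 : (fun s => eval (fun l => vl z (v l) (x s)) P) =ᶠ[𝓝 0] fun _ => 0 := by
    filter_upwards [eventually_all.2 fun l => lfe_open hx m0 (r0 l), n0] with s hs h3
    rw [← (vl_aeval (Cone.on hz (hx.2 s h3)) hs P).2, h1, lfe_zero (Cone.on hz (hx.2 s h3))]
  have d4 := d1.unique ((hasDerivAt_const _ _).congr_of_eventuallyEq d3)
  rw [Fintype.sum_option, add_eq_zero_iff_eq_neg] at d4
  simp only [← (vl_aeval hy r0 _).2] at d4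
  have d5 : ∀ j, vl z (W (some j)) (x 0) * deriv (fun s => vl z (v (some j)) (x s)) 0 =
      ∑ i, vl z (W (some j) * T j i) (x 0) * deriv p 0 i := fun j => by
    have b1 : DifferentiableAt ℂ (fun q => co β (Θ q) j) (p 0) := by
      simp only [co, div_eq_mul_inv]
      exact (dΘ _).mul ((dΘ _).inv (c0 j.2).2)
    have b2 := b1.hasFDerivAt.comp_hasDerivAt 0 dp
    change _ * deriv (fun s => vl z (co β u j) (x s)) 0 = _
    rw [(b2.congr_of_eventuallyEq (c1.mono fun s hs => hs j)).deriv, der β _ _ j c0, vf_eq, mul_sum]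
    refine sum_congr rfl fun i _ => ?_
    rw [(vl_mul hy (vl_aeval hy r0 _).1 (vl_aeval hy r1 _).1).2, (vl_aeval hy r1 _).2,
      funext c1.self_of_nhds]
    ring
  have d6 : ‖vl z (W none) (x 0)‖ * ‖deriv (fun s => vl z g (x s)) 0‖ ≤
      Fintype.card (CI M t × Fin (t + a)) * (L * ‖deriv p 0‖) := by
    rw [← norm_mul]
    refine ((congrArg norm d4).trans (norm_neg _)).trans_le ?_
    rw [sum_congr rfl fun j _ => d5 j, ← Fintype.sum_prod_type', ← nsmul_eq_mul, ← card_univ,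
      ← sum_const]
    refine (norm_sum_le _ _).trans (sum_le_sum fun κ _ => ?_)
    rw [norm_mul]
    exact mul_le_mul (a3 κ).2.1 (norm_le_pi_norm _ _) (norm_nonneg _)
      ((norm_nonneg _).trans (a3 κ).2.1)
  have d7 := (mul_le_mul_of_nonneg_right (a2 h2).1 (norm_nonneg _)).trans d6
  rw [Real.exp_neg, inv_mul_le_iff₀ (Real.exp_pos _), ← mul_assoc, ← mul_assoc,
    mul_assoc (Real.exp L)] at d7
  exact d7.trans (mul_le_mul_of_nonneg_right hL (norm_nonneg _))

end Pool.Agent.MP_c69980_ag.H43
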